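import Mathlib

/-!
# Common strip partitions: the string gadget
-/

namespace Pool.Agent.H417R2.Strip

/-- `S` and `T` admit a common strip partition: factorisations into blocks of length at least
two which are the same up to a permutation of the blocks. -/
def CSP {α : Type} (S T : List α) : Prop :=
  ∃ B C : List (List α), B.flatten = S ∧ C.flatten = T ∧ (∀ b ∈ B, 2 ≤ b.length) ∧
    (∀ c ∈ C, 2 ≤ c.length) ∧ B.Perm C

theorem CSP.map {α β : Type} {S T : List α} (h : CSP S T) (g : α → β) :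
    CSP (S.map g) (T.map g) := by
  obtain ⟨B, C, hB, hC, h1, h2, h3⟩ := h
  refine ⟨B.map (List.map g), C.map (List.map g), ?_, ?_, ?_, ?_, h3.map _⟩
  · rw [← hB, List.map_flatten]
  · rw [← hC, List.map_flatten]
  · intro b hb
    rw [List.mem_map] at hb
    obtain ⟨c, hc, rfl⟩ := hb
    simpa using h1 c hc
  · intro b hb
    rw [List.mem_map] at hb
    obtain ⟨c, hc, rfl⟩ := hb
    simpa using h2 c hc

theorem CSP.perm {α : Type} {S T : List α} (h : CSP S T) : S.Perm T := by
  obtain ⟨B, C, hB, hC, h1, h2, h3⟩ := h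
  rw [← hB, ← hC]
  exact h3.flatten

/-- Local conditions on factors of length two and three. -/
def fac (R2 : List (ℕ × ℕ)) (R3 : List (ℕ × ℕ × ℕ)) : List ℕ → Prop
  | [] => True
  | [_] => True
  | [a, b] => (a, b) ∈ R2
  | a :: b :: c :: l => (a, b) ∈ R2 ∧ (a, b, c) ∈ R3 ∧ fac R2 R3 (b :: c :: l)

theorem fac_tail {R2 : List (ℕ × ℕ)} {R3 : List (ℕ × ℕ × ℕ)} {a : ℕ} {l : List ℕ}
    (h : fac R2 R3 (a :: l)) : fac R2 R3 l := by
  match l, h with
  | [], _ => trivial
  | [_], _ => trivial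
  | _ :: _ :: _, h => exact h.2.2

theorem fac_suffix {R2 : List (ℕ × ℕ)} {R3 : List (ℕ × ℕ × ℕ)} {l l' : List ℕ}
    (h : fac R2 R3 (l ++ l')) : fac R2 R3 l' := by
  induction l with
  | nil => exact h
  | cons a l ih => exact ih (fac_tail h)

theorem fac_prefix {R2 : List (ℕ × ℕ)} {R3 : List (ℕ × ℕ × ℕ)} {l' : List ℕ} : ∀ {l : List ℕ},
    fac R2 R3 (l ++ l') → fac R2 R3 l
  | [], _ => trivial
  | [_], _ => trivial
  | [a, b], h => by
    match l', h with
    | [], h => exact h
    | _ :: _, h => exact h.1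
  | a :: b :: c :: l, h => ⟨h.1, h.2.1, fac_prefix (l := b :: c :: l) h.2.2⟩

theorem fac_inter {R2 : List (ℕ × ℕ)} {R3 : List (ℕ × ℕ × ℕ)} {R2' : List (ℕ × ℕ)}
    {R3' : List (ℕ × ℕ × ℕ)} {Q2 : List (ℕ × ℕ)} {Q3 : List (ℕ × ℕ × ℕ)}
    (h2 : ∀ p ∈ R2, p ∈ R2' → p ∈ Q2) (h3 : ∀ p ∈ R3, p ∈ R3' → p ∈ Q3) : ∀ {l : List ℕ},
    fac R2 R3 l → fac R2' R3' l → fac Q2 Q3 l
  | [], _, _ => trivial
  | [_], _, _ => trivial
  | [a, b], h, h' => h2 _ h h'
  | a :: b :: c :: l, h, h' => ⟨h2 _ h.1 h'.1, h3 _ h.2.1 h'.2.1,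
      fac_inter h2 h3 (l := b :: c :: l) h.2.2 h'.2.2⟩

/-- Letters: a tag and a name. -/
abbrev Lt := ℕ × ℕ

abbrev tg (b : List Lt) : List ℕ := b.map Prod.fst

/-- `fac` for all blocks of a factorisation. -/
theorem fac_block {R2 : List (ℕ × ℕ)} {R3 : List (ℕ × ℕ × ℕ)} {B : List (List Lt)}
    (h : fac R2 R3 (tg B.flatten)) {b : List Lt} (hb : b ∈ B) : fac R2 R3 (tg b) := by
  obtain ⟨s, t, rfl⟩ := List.append_of_mem hb
  rw [List.flatten_append, List.flatten_cons, tg, List.map_append, List.map_append] at h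
  exact fac_prefix (fac_suffix h)

/-- Two-letter factors (by tags) allowed in `S`. -/
def S2 : List (ℕ × ℕ) := [(2,3),(3,1),(1,0),(0,4),(4,5),(5,6),(6,7),(7,0),(0,1),(1,8),(8,9),(9,2),
  (10,11),(11,10),(11,2)]
def S3 : List (ℕ × ℕ × ℕ) := [(2,3,1),(3,1,0),(1,0,4),(0,4,5),(4,5,6),(5,6,7),(6,7,0),(7,0,1),
  (0,1,8),(1,8,9),(8,9,2),(9,2,3),(10,11,10),(11,10,11),(10,11,2),(11,2,3)]
def T2 : List (ℕ × ℕ) := [(6,7),(7,0),(0,4),(4,5),(5,2),(2,3),(3,1),(1,8),(8,9),(9,6),(10,11),
  (11,1),(11,0),(1,0),(0,1),(0,10),(1,10),(0,6),(1,6)]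
def T3 : List (ℕ × ℕ × ℕ) := [(6,7,0),(7,0,4),(0,4,5),(4,5,2),(5,2,3),(2,3,1),(3,1,8),(1,8,9),
  (8,9,6),(9,6,7),(10,11,1),(10,11,0),(11,1,0),(11,0,1),(1,0,10),(0,1,10),(1,0,6),(0,1,6),
  (0,10,11),(1,10,11),(0,6,7),(1,6,7)]
def C2 : List (ℕ × ℕ) := [(2,3),(3,1),(1,0),(0,4),(4,5),(6,7),(7,0),(0,1),(1,8),(8,9),(10,11)]
def C3 : List (ℕ × ℕ × ℕ) := [(2,3,1),(0,4,5),(6,7,0),(1,8,9)]

/-- A block satisfying the common local conditions. -/
def Ok (b : List Lt) : Prop := 2 ≤ b.length ∧ fac C2 C3 (tg b)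

theorem ok_of {b : List Lt} (h : 2 ≤ b.length) (hS : fac S2 S3 (tg b)) (hT : fac T2 T3 (tg b)) :
    Ok b := by
  refine ⟨h, fac_inter ?_ ?_ hS hT⟩
  · decide
  · decide

/-- The first block of a factorisation. -/
theorem first {B : List (List Lt)} (hB : ∀ b ∈ B, Ok b) {a : Lt} {rest : List Lt}
    (h : B.flatten = a :: rest) :
    ∃ c r B', B = (a :: c :: r) :: B' ∧ rest = c :: (r ++ B'.flatten) := by
  match B, h with
  | [], h => simp at h
  | b :: B', h =>
    have h2 := (hB b (by simp)).1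
    match b, h2 with
    | x :: y :: r, _ =>
      rw [List.flatten_cons, List.cons_append, List.cons_append, List.cons.injEq] at h
      obtain ⟨rfl, h''⟩ := h
      exact ⟨y, r, B', rfl, h''.symm⟩

/-- The toggle with a spare pair. -/
theorem parse1 {a a1 x u b b1 : Lt} {rest : List Lt} {B : List (List Lt)}
    (hB : ∀ b ∈ B, Ok b) (h : B.flatten = a :: a1 :: x :: u :: b :: b1 :: rest)
    (n1 : (a1.1, x.1, u.1) ∉ C3) (n2 : (x.1, u.1, b.1) ∉ C3) (n3 : ∀ y, (b1.1, y) ∉ C2) :
    ∃ B', B'.flatten = rest ∧ (B = [a, a1] :: [x, u] :: [b, b1] :: B' ∨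
      B = [a, a1, x] :: [u, b, b1] :: B') := by
  obtain ⟨c, r, B', rfl, h1⟩ := first hB h
  rw [List.cons.injEq] at h1
  obtain ⟨rfl, h1⟩ := h1
  have hB' : ∀ b ∈ B', Ok b := fun b hb => hB b (by simp [hb])
  match r, h1 with
  | [], h1 =>
    rw [List.nil_append] at h1
    obtain ⟨c, r, B'', rfl, h2⟩ := first hB' h1.symm
    rw [List.cons.injEq] at h2
    obtain ⟨rfl, h2⟩ := h2
    have hB'' : ∀ b ∈ B'', Ok b := fun b hb => hB' b (by simp [hb])
    match r, h2 with
    | [], h2 =>
      rw [List.nil_append] at h2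
      obtain ⟨c, r, B3, rfl, h3⟩ := first hB'' h2.symm
      rw [List.cons.injEq] at h3
      obtain ⟨rfl, h3⟩ := h3
      match r, h3 with
      | [], h3 => exact ⟨B3, by simpa using h3.symm, Or.inl rfl⟩
      | z :: r, h3 =>
        exfalso
        have := (hB'' (b :: b1 :: z :: r) (by simp)).2
        simp only [tg, List.map_cons, fac] at this
        match r, this with
        | [], this => exact n3 _ this.2.2
        | _ :: _, this => exact n3 _ this.2.2.1
    | z :: r, h2 =>
      exfalso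
      rw [List.cons_append, List.cons.injEq] at h2
      obtain ⟨rfl, h2⟩ := h2
      have := (hB' (x :: u :: b :: r) (by simp)).2
      exact n2 this.2.1
  | [z], h1 =>
    rw [List.cons_append, List.cons.injEq, List.nil_append] at h1
    obtain ⟨rfl, h1⟩ := h1
    obtain ⟨c, r, B'', rfl, h2⟩ := first hB' h1.symm
    rw [List.cons.injEq] at h2
    obtain ⟨rfl, h2⟩ := h2
    have hB'' : ∀ b ∈ B'', Ok b := fun b hb => hB' b (by simp [hb])
    match r, h2 with
    | [], h2 =>
      exfalso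
      rw [List.nil_append] at h2
      obtain ⟨c, r, B3, rfl, h3⟩ := first hB'' h2.symm
      have := (hB'' (b1 :: c :: r) (by simp)).2
      match r, this with
      | [], this => exact n3 _ this
      | _ :: _, this => exact n3 _ this.1
    | z :: r, h2 =>
      rw [List.cons_append, List.cons.injEq] at h2
      obtain ⟨rfl, h2⟩ := h2
      match r, h2 with
      | [], h2 => exact ⟨B'', by simpa using h2.symm, Or.inr rfl⟩
      | z :: r, h2 =>
        exfalso
        have := (hB' (u :: b :: b1 :: z :: r) (by simp)).2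
        simp only [tg, List.map_cons, fac] at this
        match r, this with
        | [], this => exact n3 _ this.2.2.2.2
        | _ :: _, this => exact n3 _ this.2.2.2.2.1
  | z :: w :: r, h1 =>
    exfalso
    rw [List.cons_append, List.cons.injEq, List.cons_append, List.cons.injEq] at h1
    obtain ⟨rfl, rfl, h1⟩ := h1
    have := (hB (a :: a1 :: x :: u :: r) (by simp)).2
    exact n1 (fac_tail this).2.1

/-- The toggle without a spare pair. -/
theorem parse2 {a a1 x b b1 : Lt} {rest : List Lt} {B : List (List Lt)}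
    (hB : ∀ b ∈ B, Ok b) (h : B.flatten = a :: a1 :: x :: b :: b1 :: rest)
    (n1 : (a1.1, x.1, b.1) ∉ C3) (n3 : ∀ y, (b1.1, y) ∉ C2) :
    ∃ B', B'.flatten = rest ∧ (B = [a, a1] :: [x, b, b1] :: B' ∨
      B = [a, a1, x] :: [b, b1] :: B') := by
  obtain ⟨c, r, B', rfl, h1⟩ := first hB h
  rw [List.cons.injEq] at h1
  obtain ⟨rfl, h1⟩ := h1
  have hB' : ∀ b ∈ B', Ok b := fun b hb => hB b (by simp [hb])
  match r, h1 with
  | [], h1 =>
    rw [List.nil_append] at h1
    obtain ⟨c, r, B'', rfl, h2⟩ := first hB' h1.symm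
    rw [List.cons.injEq] at h2
    obtain ⟨rfl, h2⟩ := h2
    have hB'' : ∀ b ∈ B'', Ok b := fun b hb => hB' b (by simp [hb])
    match r, h2 with
    | [], h2 =>
      exfalso
      rw [List.nil_append] at h2
      obtain ⟨c, r, B3, rfl, h3⟩ := first hB'' h2.symm
      have := (hB'' (b1 :: c :: r) (by simp)).2
      match r, this with
      | [], this => exact n3 _ this
      | _ :: _, this => exact n3 _ this.1
    | z :: r, h2 =>
      rw [List.cons_append, List.cons.injEq] at h2
      obtain ⟨rfl, h2⟩ := h2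
      match r, h2 with
      | [], h2 => exact ⟨B'', by simpa using h2.symm, Or.inl rfl⟩
      | z :: r, h2 =>
        exfalso
        have := (hB' (x :: b :: b1 :: z :: r) (by simp)).2
        simp only [tg, List.map_cons, fac] at this
        match r, this with
        | [], this => exact n3 _ this.2.2.2.2
        | _ :: _, this => exact n3 _ this.2.2.2.2.1
  | [z], h1 =>
    rw [List.cons_append, List.cons.injEq, List.nil_append] at h1
    obtain ⟨rfl, h1⟩ := h1
    obtain ⟨c, r, B'', rfl, h2⟩ := first hB' h1.symm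
    rw [List.cons.injEq] at h2
    obtain ⟨rfl, h2⟩ := h2
    have hB'' : ∀ b ∈ B'', Ok b := fun b hb => hB' b (by simp [hb])
    match r, h2 with
    | [], h2 => exact ⟨B'', by simpa using h2.symm, Or.inr rfl⟩
    | z :: r, h2 =>
      exfalso
      have := (hB' (b :: b1 :: z :: r) (by simp)).2
      simp only [tg, List.map_cons, fac] at this
      match r, this with
      | [], this => exact n3 _ this.2.2
      | _ :: _, this => exact n3 _ this.2.2.1
  | z :: w :: r, h1 =>
    exfalso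
    rw [List.cons_append, List.cons.injEq, List.cons_append, List.cons.injEq] at h1
    obtain ⟨rfl, rfl, h1⟩ := h1
    have := (hB (a :: a1 :: x :: b :: r) (by simp)).2
    exact n1 (fac_tail this).2.1

/-- A forced pair. -/
theorem parse0 {a a1 : Lt} {rest : List Lt} {B : List (List Lt)}
    (hB : ∀ b ∈ B, Ok b) (h : B.flatten = a :: a1 :: rest)
    (n3 : ∀ y ∈ rest.head?, (a1.1, y.1) ∉ C2) :
    ∃ B', B'.flatten = rest ∧ B = [a, a1] :: B' := by
  obtain ⟨c, r, B', rfl, h1⟩ := first hB h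
  rw [List.cons.injEq] at h1
  obtain ⟨rfl, h1⟩ := h1
  match r, h1 with
  | [], h1 => exact ⟨B', by simpa using h1.symm, rfl⟩
  | z :: r, h1 =>
    exfalso
    have := (hB (a :: a1 :: z :: r) (by simp)).2
    simp only [tg, List.map_cons, fac] at this
    refine n3 z (by rw [h1]; simp) ?_
    match r, this with
    | [], this => exact this.2.2
    | _ :: _, this => exact this.2.2.1

/-- Items: name, element, flag. -/
abbrev Item := ℕ × ℕ × Bool

def lu : Lt := (0, 0)
def le (x : ℕ) : Lt := (1, x)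
def lA (n : ℕ) : Lt := (2, n)
def lA' (n : ℕ) : Lt := (3, n)
def lB (n : ℕ) : Lt := (4, n)
def lB' (n : ℕ) : Lt := (5, n)
def lC (n : ℕ) : Lt := (6, n)
def lC' (n : ℕ) : Lt := (7, n)
def lD (n : ℕ) : Lt := (8, n)
def lD' (n : ℕ) : Lt := (9, n)
def lF : Lt := (10, 0)
def lF' : Lt := (11, 0)

def segS (p : Item × Item) : List Lt :=
  [lA p.1.1, lA' p.1.1, le p.1.2.1, lu, lB p.1.1, lB' p.1.1, lC p.1.1, lC' p.1.1, lu, le p.2.2.1,
    lD p.2.1, lD' p.2.1]

def segT (a : Item) : List Lt :=
  [lC a.1, lC' a.1, lu, lB a.1, lB' a.1, lA a.1, lA' a.1, le a.2.1, lD a.1, lD' a.1]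

/-- The isolated block. -/
def iso (a : Item) : List Lt := if a.2.2 then [le a.2.1, lu] else [lu, le a.2.1]

def strS (pr : List (Item × Item)) : List Lt :=
  pr.flatMap (fun _ => [lF, lF']) ++ pr.flatMap segS

def strT (pr : List (Item × Item)) : List Lt :=
  pr.flatMap (fun p => lF :: lF' :: iso p.1) ++ pr.flatMap (fun p => segT p.1)

theorem fac_segS (pr : List (Item × Item)) :
    fac S2 S3 (tg (pr.flatMap segS)) ∧ fac S2 S3 (8 :: 9 :: tg (pr.flatMap segS)) ∧
      fac S2 S3 (10 :: 11 :: tg (pr.flatMap segS)) := by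
  induction pr with
  | nil => simp [fac, S2]
  | cons p pr ih =>
    obtain ⟨h1, h2, h3⟩ := ih
    simp only [List.flatMap_cons, segS, tg, List.cons_append, List.nil_append, List.map_cons, lA,
      lA', le, lu, lB, lB', lC, lC', lD, lD', List.map_flatMap] at h1 h2 h3 ⊢
    refine ⟨?_, ?_, ?_⟩ <;> simp only [fac] <;> simp [S2, S3] <;> exact h2

theorem fac_strS (pr : List (Item × Item)) : fac S2 S3 (tg (strS pr)) := by
  have key : ∀ (l pr : List (Item × Item)),
      fac S2 S3 (10 :: 11 :: tg (l.flatMap (fun _ => [lF, lF']) ++ pr.flatMap segS)) := by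
    intro l pr
    induction l with
    | nil => exact (fac_segS pr).2.2
    | cons p l ih =>
      simp only [List.flatMap_cons, tg, List.cons_append, List.nil_append, List.map_cons, lF,
        lF'] at ih ⊢
      simp only [fac]
      simp [S2, S3] at ih ⊢
      exact ih
  cases pr with
  | nil => simp [strS, fac]
  | cons p pr =>
    have := key pr (p :: pr)
    simpa [strS, lF, lF'] using this

theorem fac_segT (pr : List (Item × Item)) :
    fac T2 T3 (9 :: tg (pr.flatMap (fun p => segT p.1))) ∧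
    fac T2 T3 (8 :: 9 :: tg (pr.flatMap (fun p => segT p.1))) ∧
      fac T2 T3 (1 :: 0 :: tg (pr.flatMap (fun p => segT p.1))) ∧
      fac T2 T3 (0 :: 1 :: tg (pr.flatMap (fun p => segT p.1))) := by
  induction pr with
  | nil => simp [fac, T2]
  | cons p pr ih =>
    obtain ⟨h1, h2, h3, h4⟩ := ih
    simp only [List.flatMap_cons, segT, tg, List.cons_append, List.nil_append, List.map_cons, lA,
      lA', le, lu, lB, lB', lC, lC', lD, lD', List.map_flatMap] at h1 h2 h3 h4 ⊢
    refine ⟨?_, ?_, ?_, ?_⟩ <;> simp only [fac] <;> simp [T2, T3] <;> exact h2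

theorem fac_strT (pr : List (Item × Item)) : fac T2 T3 (tg (strT pr)) := by
  have key : ∀ (l pr : List (Item × Item)),
      fac T2 T3 (1 :: 0 :: tg (l.flatMap (fun p => lF :: lF' :: iso p.1) ++
        pr.flatMap (fun p => segT p.1))) ∧
      fac T2 T3 (0 :: 1 :: tg (l.flatMap (fun p => lF :: lF' :: iso p.1) ++
        pr.flatMap (fun p => segT p.1))) := by
    intro l pr
    induction l with
    | nil => exact (fac_segT pr).2.2
    | cons p l ih =>
      obtain ⟨h1, h2⟩ := ih
      unfold iso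
      unfold iso at h1 h2
      by_cases hp : p.1.2.2 = true
      · simp only [List.flatMap_cons, tg, List.cons_append, List.nil_append, List.map_cons, lF,
          lF', hp, if_true, le, lu, List.map_append] at h1 h2 ⊢
        simp only [fac]
        refine ⟨?_, ?_⟩ <;> simp [T2, T3] <;> exact h1
      · simp only [List.flatMap_cons, tg, List.cons_append, List.nil_append, List.map_cons, lF,
          lF', hp, le, lu, List.map_append] at h1 h2 ⊢
        simp only [fac]
        refine ⟨?_, ?_⟩ <;> simp [fac, T2, T3] <;> exact h2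
  cases pr with
  | nil => simp [strT, fac]
  | cons p pr =>
    have := (key (p :: pr) (p :: pr)).1
    exact fac_tail (fac_tail this)

end Pool.Agent.H417R2.Strip
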