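import Pool.Agent.H417R2.StripA

/-!
# Common strip partitions: correctness of the string gadget
-/

namespace Pool.Agent.H417R2.Strip

/-- Blocks of `S` in given states. -/
def bS (s s' : ℕ → Bool) (p : Item × Item) : List (List Lt) :=
  (if s p.1.1 = true then [[lA p.1.1, lA' p.1.1], [le p.1.2.1, lu], [lB p.1.1, lB' p.1.1]]
    else [[lA p.1.1, lA' p.1.1, le p.1.2.1], [lu, lB p.1.1, lB' p.1.1]]) ++
  (if s' p.1.1 = true then [[lC p.1.1, lC' p.1.1, lu], [le p.2.2.1, lD p.2.1, lD' p.2.1]]
    else [[lC p.1.1, lC' p.1.1], [lu, le p.2.2.1], [lD p.2.1, lD' p.2.1]])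

/-- Blocks of `T` in given states. -/
def bT (t t' : ℕ → Bool) (a : Item) : List (List Lt) :=
  (if t a.1 = true then [[lC a.1, lC' a.1, lu], [lB a.1, lB' a.1]]
    else [[lC a.1, lC' a.1], [lu, lB a.1, lB' a.1]]) ++
  (if t' a.1 = true then [[lA a.1, lA' a.1], [le a.2.1, lD a.1, lD' a.1]]
    else [[lA a.1, lA' a.1, le a.2.1], [lD a.1, lD' a.1]])

theorem parseS : ∀ (pr : List (Item × Item)), (pr.map (fun p => p.1.1)).Nodup →
    ∀ B : List (List Lt), (∀ b ∈ B, Ok b) → B.flatten = pr.flatMap segS →
    ∃ s s' : ℕ → Bool, B = pr.flatMap (bS s s')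
  | [], _, B, hB, h => by
    refine ⟨fun _ => true, fun _ => true, ?_⟩
    match B, h with
    | [], _ => rfl
    | b :: B', h =>
      exfalso
      have h1 := (hB b (by simp)).1
      simp at h
      rw [h.1] at h1
      simp at h1
  | p :: pr, hn, B, hB, h => by
    rw [List.flatMap_cons] at h
    simp only [segS, List.cons_append, List.nil_append] at h
    obtain ⟨B1, h1, h1'⟩ := parse1 hB h (by simp [C3, lA', le, lu]) (by simp [C3, le, lu, lB])
      (by simp [C2, lB'])
    have hB1 : ∀ b ∈ B1, Ok b := by
      intro b hb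
      rcases h1' with rfl | rfl <;> exact hB b (by simp [hb])
    obtain ⟨B2, h2, h2'⟩ := parse1 hB1 h1 (by simp [C3, lC', le, lu]) (by simp [C3, le, lu, lD])
      (by simp [C2, lD'])
    have hB2 : ∀ b ∈ B2, Ok b := by
      intro b hb
      rcases h2' with rfl | rfl <;> exact hB1 b (by simp [hb])
    rw [List.map_cons, List.nodup_cons] at hn
    obtain ⟨s, s', hs⟩ := parseS pr hn.2 B2 hB2 h2
    have key : ∀ x y : Bool, pr.flatMap (bS (Function.update s p.1.1 x)
        (Function.update s' p.1.1 y)) = pr.flatMap (bS s s') := by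
      intro x y
      refine List.flatMap_congr fun q hq => ?_
      have hne : q.1.1 ≠ p.1.1 := by
        intro he
        exact hn.1 (List.mem_map.2 ⟨q, hq, he⟩)
      simp [bS, Function.update_of_ne hne]
    rcases h1' with rfl | rfl <;> rcases h2' with rfl | rfl
    · refine ⟨Function.update s p.1.1 true, Function.update s' p.1.1 false, ?_⟩
      rw [List.flatMap_cons, key, ← hs]
      simp [bS]
    · refine ⟨Function.update s p.1.1 true, Function.update s' p.1.1 true, ?_⟩
      rw [List.flatMap_cons, key, ← hs]
      simp [bS]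
    · refine ⟨Function.update s p.1.1 false, Function.update s' p.1.1 false, ?_⟩
      rw [List.flatMap_cons, key, ← hs]
      simp [bS]
    · refine ⟨Function.update s p.1.1 false, Function.update s' p.1.1 true, ?_⟩
      rw [List.flatMap_cons, key, ← hs]
      simp [bS]

theorem parseT : ∀ (pr : List (Item × Item)), (pr.map (fun p => p.1.1)).Nodup →
    ∀ B : List (List Lt), (∀ b ∈ B, Ok b) → B.flatten = pr.flatMap (fun p => segT p.1) →
    ∃ s s' : ℕ → Bool, B = pr.flatMap (fun p => bT s s' p.1)
  | [], _, B, hB, h => by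
    refine ⟨fun _ => true, fun _ => true, ?_⟩
    match B, h with
    | [], _ => rfl
    | b :: B', h =>
      exfalso
      have h1 := (hB b (by simp)).1
      simp at h
      rw [h.1] at h1
      simp at h1
  | p :: pr, hn, B, hB, h => by
    rw [List.flatMap_cons] at h
    simp only [segT, List.cons_append, List.nil_append] at h
    obtain ⟨B1, h1, h1'⟩ := parse2 hB h (by simp [C3, lC', lB, lu]) (by simp [C2, lB'])
    have hB1 : ∀ b ∈ B1, Ok b := by
      intro b hb
      rcases h1' with rfl | rfl <;> exact hB b (by simp [hb])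
    obtain ⟨B2, h2, h2'⟩ := parse2 hB1 h1 (by simp [C3, lA', le, lD]) (by simp [C2, lD'])
    have hB2 : ∀ b ∈ B2, Ok b := by
      intro b hb
      rcases h2' with rfl | rfl <;> exact hB1 b (by simp [hb])
    rw [List.map_cons, List.nodup_cons] at hn
    obtain ⟨s, s', hs⟩ := parseT pr hn.2 B2 hB2 h2
    have key : ∀ x y : Bool, pr.flatMap (fun q => bT (Function.update s p.1.1 x)
        (Function.update s' p.1.1 y) q.1) = pr.flatMap (fun q => bT s s' q.1) := by
      intro x y
      refine List.flatMap_congr fun q hq => ?_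
      have hne : q.1.1 ≠ p.1.1 := by
        intro he
        exact hn.1 (List.mem_map.2 ⟨q, hq, he⟩)
      simp [bT, Function.update_of_ne hne]
    rcases h1' with rfl | rfl <;> rcases h2' with rfl | rfl
    · refine ⟨Function.update s p.1.1 false, Function.update s' p.1.1 true, ?_⟩
      rw [List.flatMap_cons, key, ← hs]
      simp [bT]
    · refine ⟨Function.update s p.1.1 false, Function.update s' p.1.1 false, ?_⟩
      rw [List.flatMap_cons, key, ← hs]
      simp [bT]
    · refine ⟨Function.update s p.1.1 true, Function.update s' p.1.1 true, ?_⟩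
      rw [List.flatMap_cons, key, ← hs]
      simp [bT]
    · refine ⟨Function.update s p.1.1 true, Function.update s' p.1.1 false, ?_⟩
      rw [List.flatMap_cons, key, ← hs]
      simp [bT]

theorem parseFS (X : List Lt) : ∀ (l : List (Item × Item)) (B : List (List Lt)),
    (∀ b ∈ B, Ok b) → B.flatten = l.flatMap (fun _ => [lF, lF']) ++ X →
    ∃ B', B'.flatten = X ∧ B = l.flatMap (fun _ => [[lF, lF']]) ++ B'
  | [], B, _, h => ⟨B, by simpa using h, by simp⟩
  | p :: l, B, hB, h => by
    rw [List.flatMap_cons] at h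
    simp only [List.cons_append, List.nil_append] at h
    obtain ⟨B1, h1, rfl⟩ := parse0 hB h (fun y _ => by simp [C2, lF'])
    obtain ⟨B2, h2, rfl⟩ := parseFS X l B1 (fun b hb => hB b (by simp [hb])) h1
    exact ⟨B2, h2, by simp⟩

theorem parseFT (pr : List (Item × Item)) : ∀ (l : List (Item × Item)) (B : List (List Lt)),
    (∀ b ∈ B, Ok b) → B.flatten = l.flatMap (fun p => lF :: lF' :: iso p.1) ++
      pr.flatMap (fun p => segT p.1) →
    ∃ B', B'.flatten = pr.flatMap (fun p => segT p.1) ∧
      B = l.flatMap (fun p => [[lF, lF'], iso p.1]) ++ B'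
  | [], B, _, h => ⟨B, by simpa using h, by simp⟩
  | p :: l, B, hB, h => by
    rw [List.flatMap_cons] at h
    simp only [List.cons_append, List.append_assoc] at h
    obtain ⟨B1, h1, rfl⟩ := parse0 hB h (fun y _ => by simp [C2, lF'])
    have hB1 : ∀ b ∈ B1, Ok b := fun b hb => hB b (by simp [hb])
    have hhead : ∀ y ∈ (l.flatMap (fun p => lF :: lF' :: iso p.1) ++
        pr.flatMap (fun p => segT p.1)).head?, y.1 = 10 ∨ y.1 = 6 := by
      intro y hy
      cases l with
      | nil =>
        cases pr with
        | nil => simp at hy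
        | cons q pr =>
          simp [segT, lC] at hy
          right
          rw [← hy]
      | cons q l =>
        simp [lF] at hy
        left
        rw [← hy]
    have h2 : ∃ B2 : List (List Lt), B2.flatten = l.flatMap (fun p => lF :: lF' :: iso p.1) ++
        pr.flatMap (fun p => segT p.1) ∧ B1 = iso p.1 :: B2 := by
      unfold iso at h1 ⊢
      by_cases hp : p.1.2.2 = true
      · rw [if_pos hp] at h1 ⊢
        simp only [List.cons_append, List.nil_append] at h1
        refine parse0 hB1 h1 (fun y hy => ?_)
        rcases hhead y hy with h | h <;> simp [C2, lu, h]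
      · rw [if_neg hp] at h1 ⊢
        simp only [List.cons_append, List.nil_append] at h1
        refine parse0 hB1 h1 (fun y hy => ?_)
        rcases hhead y hy with h | h <;> simp [C2, le, h]
    obtain ⟨B2, h2, rfl⟩ := h2
    obtain ⟨B3, h3, rfl⟩ := parseFT pr l B2 (fun b hb => hB1 b (by simp [hb])) h2
    exact ⟨B3, h3, by simp⟩

/-- Extract the element of a block `x u`. -/
def ext : List Lt → Option ℕ
  | [(1, x), (0, 0)] => some x
  | _ => none

theorem filterMap_bS (s s' : ℕ → Bool) (pr : List (Item × Item)) :
    (pr.flatMap (bS s s')).filterMap ext =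
      ((pr.map Prod.fst).filter (fun a => s a.1)).map (fun a => a.2.1) := by
  induction pr with
  | nil => rfl
  | cons p pr ih =>
    rw [List.flatMap_cons, List.filterMap_append, ih, List.map_cons, List.filter_cons]
    unfold bS
    split_ifs <;> simp [ext, lA, lA', le, lu, lB, lB', lC, lC', lD, lD']

theorem filterMap_bT (t t' : ℕ → Bool) (pr : List (Item × Item)) :
    (pr.flatMap (fun p => bT t t' p.1)).filterMap ext = [] := by
  induction pr with
  | nil => rfl
  | cons p pr ih =>
    rw [List.flatMap_cons, List.filterMap_append, ih]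
    unfold bT
    split_ifs <;> simp [ext, lA, lA', le, lu, lB, lB', lC, lC', lD, lD']

theorem filterMap_FS (l : List (Item × Item)) :
    (l.flatMap (fun _ => [[lF, lF']])).filterMap ext = [] := by
  induction l with
  | nil => rfl
  | cons p l ih =>
    rw [List.flatMap_cons, List.filterMap_append, ih]
    simp [ext, lF, lF']

theorem filterMap_FT (l : List (Item × Item)) :
    (l.flatMap (fun p => [[lF, lF'], iso p.1])).filterMap ext =
      ((l.map Prod.fst).filter (fun a => a.2.2)).map (fun a => a.2.1) := by
  induction l with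
  | nil => rfl
  | cons p l ih =>
    rw [List.flatMap_cons, List.filterMap_append, ih, List.map_cons, List.filter_cons]
    unfold iso
    split_ifs <;> simp [ext, lF, lF', le, lu]

theorem sound (pr : List (Item × Item)) (hn : (pr.map (fun p => p.1.1)).Nodup)
    (hp : (pr.map Prod.snd).Perm (pr.map Prod.fst)) (h : CSP (strS pr) (strT pr)) :
    ∃ s : ℕ → Bool, (∀ p ∈ pr, s p.1.1 = s p.2.1) ∧
      (((pr.map Prod.fst).filter (fun a => s a.1)).map (fun a => a.2.1)).Perm
        (((pr.map Prod.fst).filter (fun a => a.2.2)).map (fun a => a.2.1)) := by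
  obtain ⟨B, C, hB, hC, h1, h2, h3⟩ := h
  have fS : ∀ b ∈ B, fac S2 S3 (tg b) := fun b hb => fac_block (by rw [hB]; exact fac_strS pr) hb
  have fT : ∀ b ∈ C, fac T2 T3 (tg b) := fun b hb => fac_block (by rw [hC]; exact fac_strT pr) hb
  have okB : ∀ b ∈ B, Ok b := fun b hb => ok_of (h1 b hb) (fS b hb) (fT b (h3.mem_iff.1 hb))
  have okC : ∀ b ∈ C, Ok b := fun b hb => okB b (h3.mem_iff.2 hb)
  obtain ⟨B1, hB1, rfl⟩ := parseFS _ pr B okB hB
  obtain ⟨C1, hC1, rfl⟩ := parseFT _ pr C okC hC
  obtain ⟨s, s', rfl⟩ := parseS pr hn B1 (fun b hb => okB b (List.mem_append_right _ hb)) hB1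
  obtain ⟨t, t', rfl⟩ := parseT pr hn C1 (fun b hb => okC b (List.mem_append_right _ hb)) hC1
  have memB : ∀ p ∈ pr, ∀ b ∈ bS s s' p, b ∈ pr.flatMap (fun p => [[lF, lF'], iso p.1]) ++
      pr.flatMap (fun p => bT t t' p.1) := by
    intro p hp b hb
    refine h3.mem_iff.1 (List.mem_append_right _ ?_)
    exact List.mem_flatMap.2 ⟨p, hp, hb⟩
  have memC : ∀ b, b ∈ pr.flatMap (fun p => [[lF, lF'], iso p.1]) ++
      pr.flatMap (fun p => bT t t' p.1) → b = [lF, lF'] ∨ (∃ x, b = [le x, lu]) ∨
        (∃ x, b = [lu, le x]) ∨ ∃ p ∈ pr, b ∈ bT t t' p.1 := by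
    intro b hb
    rw [List.mem_append, List.mem_flatMap, List.mem_flatMap] at hb
    rcases hb with ⟨p, _, hb⟩ | hb
    · simp only [List.mem_cons, List.not_mem_nil, or_false] at hb
      rcases hb with hb | hb
      · exact Or.inl hb
      · right
        rw [hb, iso]
        split_ifs
        · exact Or.inl ⟨_, rfl⟩
        · exact Or.inr (Or.inl ⟨_, rfl⟩)
    · exact Or.inr (Or.inr (Or.inr hb))
  -- states agree
  have e1 : ∀ p ∈ pr, s p.1.1 = t' p.1.1 := by
    intro p hp
    cases hs : s p.1.1 with
    | true =>
      have := memC _ (memB p hp [lA p.1.1, lA' p.1.1] (by simp [bS, hs]))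
      rcases this with h | ⟨x, h⟩ | ⟨x, h⟩ | ⟨q, hq, h⟩
      · simp [lA, lF] at h
      · simp [lA, le] at h
      · simp [lA, lu] at h
      · unfold bT at h
        split_ifs at h <;> simp [lA, lA', lC, lC', lB, lB', lu, le, lD, lD'] at h
        · rw [h]; symm; assumption
        · rw [h]; symm; assumption
    | false =>
      have := memC _ (memB p hp [lA p.1.1, lA' p.1.1, le p.1.2.1] (by simp [bS, hs]))
      rcases this with h | ⟨x, h⟩ | ⟨x, h⟩ | ⟨q, hq, h⟩
      · simp [lA, lF] at h
      · simp [lA, le] at h
      · simp [lA, lu] at h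
      · unfold bT at h
        split_ifs at h with ha hb hb <;> simp [lA, lA', lC, lC', lB, lB', lu, le, lD, lD'] at h
        · rw [h.1]; simp only [Bool.not_eq_true] at hb; exact hb.symm
        · rw [h.1]; simp only [Bool.not_eq_true] at hb; exact hb.symm
  have e2 : ∀ p ∈ pr, s p.1.1 = t p.1.1 := by
    intro p hp
    cases hs : s p.1.1 with
    | true =>
      have := memC _ (memB p hp [lB p.1.1, lB' p.1.1] (by simp [bS, hs]))
      rcases this with h | ⟨x, h⟩ | ⟨x, h⟩ | ⟨q, hq, h⟩
      · simp [lB, lF] at h
      · simp [lB, le] at h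
      · simp [lB, lu] at h
      · unfold bT at h
        split_ifs at h <;> simp [lA, lA', lC, lC', lB, lB', lu, le, lD, lD'] at h
        · rw [h]; symm; assumption
        · rw [h]; symm; assumption
    | false =>
      have := memC _ (memB p hp [lu, lB p.1.1, lB' p.1.1] (by simp [bS, hs]))
      rcases this with h | ⟨x, h⟩ | ⟨x, h⟩ | ⟨q, hq, h⟩
      · simp [lB, lF] at h
      · simp [lB, le] at h
      · simp [lB, lu] at h
      · unfold bT at h
        split_ifs at h with ha hb hb <;> simp [lA, lA', lC, lC', lB, lB', lu, le, lD, lD'] at h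
        · rw [h]; simp only [Bool.not_eq_true] at ha; exact ha.symm
        · rw [h]; simp only [Bool.not_eq_true] at ha; exact ha.symm
  have e3 : ∀ p ∈ pr, s' p.1.1 = t p.1.1 := by
    intro p hp
    cases hs : s' p.1.1 with
    | true =>
      have := memC _ (memB p hp [lC p.1.1, lC' p.1.1, lu] (by simp [bS, hs]))
      rcases this with h | ⟨x, h⟩ | ⟨x, h⟩ | ⟨q, hq, h⟩
      · simp [lC, lF] at h
      · simp [lC, le] at h
      · simp [lC, lu] at h
      · unfold bT at h
        split_ifs at h <;> simp [lA, lA', lC, lC', lB, lB', lu, le, lD, lD'] at h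
        · rw [h]; symm; assumption
        · rw [h]; symm; assumption
    | false =>
      have := memC _ (memB p hp [lC p.1.1, lC' p.1.1] (by simp [bS, hs]))
      rcases this with h | ⟨x, h⟩ | ⟨x, h⟩ | ⟨q, hq, h⟩
      · simp [lC, lF] at h
      · simp [lC, le] at h
      · simp [lC, lu] at h
      · unfold bT at h
        split_ifs at h with ha hb hb <;> simp [lA, lA', lC, lC', lB, lB', lu, le, lD, lD'] at h
        · rw [h]; simp only [Bool.not_eq_true] at ha; exact ha.symm
        · rw [h]; simp only [Bool.not_eq_true] at ha; exact ha.symm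
  have e4 : ∀ p ∈ pr, s' p.1.1 = t' p.2.1 := by
    intro p hp
    cases hs : s' p.1.1 with
    | true =>
      have := memC _ (memB p hp [le p.2.2.1, lD p.2.1, lD' p.2.1] (by simp [bS, hs]))
      rcases this with h | ⟨x, h⟩ | ⟨x, h⟩ | ⟨q, hq, h⟩
      · simp [lF] at h
      · simp at h
      · simp at h
      · unfold bT at h
        split_ifs at h <;> simp [lA, lA', lC, lC', lB, lB', lu, le, lD, lD'] at h
        · rw [h.2]; symm; assumption
        · rw [h.2]; symm; assumption
    | false =>
      have := memC _ (memB p hp [lD p.2.1, lD' p.2.1] (by simp [bS, hs]))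
      rcases this with h | ⟨x, h⟩ | ⟨x, h⟩ | ⟨q, hq, h⟩
      · simp [lD, lF] at h
      · simp [lD, le] at h
      · simp [lD, lu] at h
      · unfold bT at h
        split_ifs at h with ha hb hb <;> simp [lA, lA', lC, lC', lB, lB', lu, le, lD, lD'] at h
        · rw [h]; simp only [Bool.not_eq_true] at hb; exact hb.symm
        · rw [h]; simp only [Bool.not_eq_true] at hb; exact hb.symm
  refine ⟨s, ?_, ?_⟩
  · intro p hpp
    have : p.2 ∈ pr.map Prod.fst := hp.mem_iff.1 (List.mem_map.2 ⟨p, hpp, rfl⟩)
    rw [List.mem_map] at this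
    obtain ⟨q, hq, hqp⟩ := this
    have e5 := e1 q hq
    rw [hqp] at e5
    rw [e5, ← e4 p hpp, e3 p hpp, e2 p hpp]
  · have := h3.filterMap ext
    rw [List.filterMap_append, List.filterMap_append, filterMap_FS, filterMap_FT, filterMap_bS,
      filterMap_bT, List.nil_append, List.append_nil] at this
    exact this

theorem flatten_bS (s s' : ℕ → Bool) (pr : List (Item × Item)) :
    (pr.flatMap (bS s s')).flatten = pr.flatMap segS := by
  induction pr with
  | nil => rfl
  | cons p pr ih =>
    rw [List.flatMap_cons, List.flatten_append, ih, List.flatMap_cons]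
    congr 1
    unfold bS segS
    split_ifs <;> rfl

theorem flatten_bT (s s' : ℕ → Bool) (pr : List (Item × Item)) :
    (pr.flatMap (fun p => bT s s' p.1)).flatten = pr.flatMap (fun p => segT p.1) := by
  induction pr with
  | nil => rfl
  | cons p pr ih =>
    rw [List.flatMap_cons, List.flatten_append, ih, List.flatMap_cons]
    congr 1
    unfold bT segT
    split_ifs <;> rfl

theorem flatten_FS (l : List (Item × Item)) :
    (l.flatMap (fun _ => [[lF, lF']])).flatten = l.flatMap (fun _ => [lF, lF']) := by
  induction l with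
  | nil => rfl
  | cons p l ih =>
    rw [List.flatMap_cons, List.flatten_append, ih, List.flatMap_cons]
    rfl

theorem flatten_FT (l : List (Item × Item)) :
    (l.flatMap (fun p => [[lF, lF'], iso p.1])).flatten =
      l.flatMap (fun p => lF :: lF' :: iso p.1) := by
  induction l with
  | nil => rfl
  | cons p l ih =>
    rw [List.flatMap_cons, List.flatten_append, ih, List.flatMap_cons]
    simp

theorem flatMap_append_perm' {α β : Type} (l : List α) (f g : α → List β) :
    (l.flatMap (fun x => f x ++ g x)).Perm (l.flatMap f ++ l.flatMap g) :=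
  (List.flatMap_append_perm l f g).symm

theorem flatMap_perm_congr {α β : Type} {l : List α} {f g : α → List β}
    (h : ∀ x ∈ l, (f x).Perm (g x)) : (l.flatMap f).Perm (l.flatMap g) := by
  induction l with
  | nil => exact List.Perm.refl _
  | cons a l ih =>
    rw [List.flatMap_cons, List.flatMap_cons]
    exact (h a (by simp)).append (ih fun x hx => h x (by simp [hx]))

def hS (s : ℕ → Bool) (a : Item) : List (List Lt) :=
  if s a.1 = true then [[lA a.1, lA' a.1], [le a.2.1, lu], [lB a.1, lB' a.1],
    [lC a.1, lC' a.1, lu]]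
  else [[lA a.1, lA' a.1, le a.2.1], [lu, lB a.1, lB' a.1], [lC a.1, lC' a.1]]

def kS (s : ℕ → Bool) (a : Item) : List (List Lt) :=
  if s a.1 = true then [[le a.2.1, lD a.1, lD' a.1]] else [[lu, le a.2.1], [lD a.1, lD' a.1]]

/-- The spare pair of an item in a given state. -/
def io (s : ℕ → Bool) (a : Item) : List Lt :=
  if s a.1 = true then [le a.2.1, lu] else [lu, le a.2.1]

theorem bS_eq (s : ℕ → Bool) (p : Item × Item) (h : s p.1.1 = s p.2.1) :
    bS s s p = hS s p.1 ++ kS s p.2 := by
  unfold bS hS kS
  rw [← h]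
  split_ifs <;> rfl

theorem hk_perm (s : ℕ → Bool) (a : Item) :
    (hS s a ++ kS s a).Perm ([io s a] ++ bT s s a) := by
  unfold hS kS io bT
  split_ifs
  · rw [List.perm_iff_count]
    intro b
    simp only [List.cons_append, List.nil_append, List.count_cons, List.count_nil]
    omega
  · rw [List.perm_iff_count]
    intro b
    simp only [List.cons_append, List.nil_append, List.count_cons, List.count_nil]
    omega

theorem map_split {α β : Type} (l : List α) (p : α → Bool) (f g : α → β) (h : α → β)
    (h1 : ∀ a, p a = true → h a = f a) (h2 : ∀ a, p a = false → h a = g a) :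
    (l.map h).Perm ((l.filter p).map f ++ (l.filter (fun a => !p a)).map g) := by
  have h3 := (List.filter_append_perm p l).symm.map h
  rw [List.map_append] at h3
  refine h3.trans (List.Perm.of_eq ?_)
  congr 1
  · refine List.map_congr_left fun a ha => h1 a (List.mem_filter.1 ha).2
  · refine List.map_congr_left fun a ha => h2 a ?_
    have := (List.mem_filter.1 ha).2
    simpa using this

theorem io_perm (I : List Item) (s : ℕ → Bool)
    (h : ((I.filter (fun a => s a.1)).map (fun a => a.2.1)).Perm
      ((I.filter (fun a => a.2.2)).map (fun a => a.2.1))) :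
    (I.map (io s)).Perm (I.map iso) := by
  have e1 := map_split I (fun a => s a.1) (fun a => [le a.2.1, lu]) (fun a => [lu, le a.2.1])
    (io s) (fun a ha => by simp [io, ha])
    (fun a ha => by simp [io, ha])
  have e2 := map_split I (fun a => a.2.2) (fun a => [le a.2.1, lu]) (fun a => [lu, le a.2.1])
    iso (fun a ha => by simp [iso, ha])
    (fun a ha => by simp [iso, ha])
  refine e1.trans (List.Perm.trans ?_ e2.symm)
  have h' : ((I.filter (fun a => !s a.1)).map (fun a => a.2.1)).Perm
      ((I.filter (fun a => !a.2.2)).map (fun a => a.2.1)) := by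
    have f1 := (List.filter_append_perm (fun a : Item => s a.1) I).map (fun a => a.2.1)
    have f2 := (List.filter_append_perm (fun a : Item => a.2.2) I).map (fun a => a.2.1)
    have f3 := f1.trans f2.symm
    rw [List.map_append, List.map_append] at f3
    exact (List.perm_append_left_iff _).1 (f3.trans (h.symm.append_right _))
  have g1 := h.map (fun x => [le x, lu])
  have g2 := h'.map (fun x => [lu, le x])
  rw [List.map_map, List.map_map] at g1 g2
  exact g1.append g2

theorem flatMap_single {α β : Type} (f : α → β) (l : List α) :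
    l.flatMap (fun p => [f p]) = l.map f := by
  induction l with
  | nil => rfl
  | cons a l ih => rw [List.flatMap_cons, ih]; rfl

theorem complete (pr : List (Item × Item)) (hp : (pr.map Prod.snd).Perm (pr.map Prod.fst))
    (s : ℕ → Bool) (hs : ∀ p ∈ pr, s p.1.1 = s p.2.1)
    (h : (((pr.map Prod.fst).filter (fun a => s a.1)).map (fun a => a.2.1)).Perm
        (((pr.map Prod.fst).filter (fun a => a.2.2)).map (fun a => a.2.1))) :
    CSP (strS pr) (strT pr) := by
  refine ⟨pr.flatMap (fun _ => [[lF, lF']]) ++ pr.flatMap (bS s s),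
    pr.flatMap (fun p => [[lF, lF'], iso p.1]) ++ pr.flatMap (fun p => bT s s p.1), ?_, ?_, ?_,
    ?_, ?_⟩
  · rw [List.flatten_append, flatten_FS, flatten_bS, strS]
  · rw [List.flatten_append, flatten_FT, flatten_bT, strT]
  · intro b hb
    rw [List.mem_append, List.mem_flatMap, List.mem_flatMap] at hb
    rcases hb with ⟨p, _, hb⟩ | ⟨p, _, hb⟩
    · simp at hb; simp [hb]
    · unfold bS at hb
      split_ifs at hb <;> simp at hb
      · rcases hb with rfl | rfl | rfl | rfl | rfl <;> simp
      · rcases hb with rfl | rfl | rfl | rfl | rfl <;> simp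
  · intro b hb
    rw [List.mem_append, List.mem_flatMap, List.mem_flatMap] at hb
    rcases hb with ⟨p, _, hb⟩ | ⟨p, _, hb⟩
    · simp at hb
      rcases hb with rfl | rfl
      · simp
      · unfold iso
        split_ifs <;> simp
    · unfold bT at hb
      split_ifs at hb <;> simp at hb <;> rcases hb with rfl | rfl | rfl | rfl <;> simp
  · -- the permutation
    have p1 : pr.flatMap (bS s s) = pr.flatMap (fun p => hS s p.1 ++ kS s p.2) :=
      List.flatMap_congr fun p hp => bS_eq s p (hs p hp)
    have p2 : (pr.flatMap (fun p => hS s p.1 ++ kS s p.2)).Perm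
        (pr.flatMap (fun p => hS s p.1) ++ pr.flatMap (fun p => kS s p.2)) :=
      flatMap_append_perm' _ _ _
    have p3 : (pr.flatMap (fun p => kS s p.2)).Perm (pr.flatMap (fun p => kS s p.1)) := by
      have := hp.flatMap_right (kS s)
      rwa [List.flatMap_map, List.flatMap_map] at this
    have p4 : (pr.flatMap (fun p => hS s p.1) ++ pr.flatMap (fun p => kS s p.1)).Perm
        (pr.flatMap (fun p => hS s p.1 ++ kS s p.1)) := List.flatMap_append_perm _ _ _
    have p5 : (pr.flatMap (fun p => hS s p.1 ++ kS s p.1)).Perm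
        (pr.flatMap (fun p => [io s p.1] ++ bT s s p.1)) :=
      flatMap_perm_congr fun p _ => hk_perm s p.1
    have p6 : (pr.flatMap (fun p => [io s p.1] ++ bT s s p.1)).Perm
        (pr.flatMap (fun p => [io s p.1]) ++ pr.flatMap (fun p => bT s s p.1)) :=
      flatMap_append_perm' _ _ _
    have p7 : (pr.flatMap (fun p => [io s p.1])).Perm (pr.flatMap (fun p => [iso p.1])) := by
      have := io_perm (pr.map Prod.fst) s h
      rw [List.map_map, List.map_map] at this
      rw [flatMap_single, flatMap_single]
      exact this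
    have p8 : (pr.flatMap (fun p => [[lF, lF'], iso p.1])).Perm
        (pr.flatMap (fun _ => [[lF, lF']]) ++ pr.flatMap (fun p => [iso p.1])) :=
      flatMap_append_perm' pr (fun _ => [[lF, lF']]) (fun p => [iso p.1])
    rw [p1]
    have q1 := p2.trans ((p3.append_left _).trans (p4.trans (p5.trans (p6.trans
      (p7.append_right _)))))
    refine (q1.append_left _).trans ?_
    rw [← List.append_assoc]
    exact (p8.symm.append_right _)

theorem csp_iff (pr : List (Item × Item)) (hn : (pr.map (fun p => p.1.1)).Nodup)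
    (hp : (pr.map Prod.snd).Perm (pr.map Prod.fst)) :
    CSP (strS pr) (strT pr) ↔ ∃ s : ℕ → Bool, (∀ p ∈ pr, s p.1.1 = s p.2.1) ∧
      (((pr.map Prod.fst).filter (fun a => s a.1)).map (fun a => a.2.1)).Perm
        (((pr.map Prod.fst).filter (fun a => a.2.2)).map (fun a => a.2.1)) :=
  ⟨sound pr hn hp, fun ⟨s, h1, h2⟩ => complete pr hp s h1 h2⟩

/-- The two strings are balanced. -/
theorem balanced (pr : List (Item × Item)) (hp : (pr.map Prod.snd).Perm (pr.map Prod.fst)) :
    (strS pr).Perm (strT pr) := by
  have p1 : (pr.flatMap segS).Perm (pr.flatMap (fun p =>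
      [lA p.1.1, lA' p.1.1, le p.1.2.1, lu, lB p.1.1, lB' p.1.1, lC p.1.1, lC' p.1.1, lu] ++
      [le p.2.2.1, lD p.2.1, lD' p.2.1])) := List.Perm.refl _
  have p2 := p1.trans (flatMap_append_perm' _ _ _)
  have p3 : (pr.flatMap (fun p => [le p.2.2.1, lD p.2.1, lD' p.2.1])).Perm
      (pr.flatMap (fun p => [le p.1.2.1, lD p.1.1, lD' p.1.1])) := by
    have := hp.flatMap_right (fun a : Item => [le a.2.1, lD a.1, lD' a.1])
    rwa [List.flatMap_map, List.flatMap_map] at this
  have p4 := p2.trans ((p3.append_left _).trans (List.flatMap_append_perm _ _ _))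
  unfold strS strT
  have p5 : (pr.flatMap (fun p => lF :: lF' :: iso p.1)).Perm
      (pr.flatMap (fun _ => [lF, lF']) ++ pr.flatMap (fun p => iso p.1)) :=
    flatMap_append_perm' pr (fun _ => [lF, lF']) (fun p => iso p.1)
  refine List.Perm.trans ?_ (p5.append_right _).symm
  rw [List.append_assoc]
  refine List.Perm.append_left _ (p4.trans ?_)
  refine List.Perm.trans ?_ (List.flatMap_append_perm _ _ _).symm
  refine flatMap_perm_congr fun p _ => ?_
  unfold iso segT
  rw [List.perm_iff_count]
  intro b
  split_ifs <;>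
  · simp only [List.cons_append, List.nil_append, List.count_cons, List.count_nil]
    omega

end Pool.Agent.H417R2.Strip
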