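import Pool.Agent.H417R2.StripB
import Pool.Agent.NPC.Sat2

/-!
# Common strip partitions: from 3SAT to the gadget
-/

namespace Pool.Agent.H417R2.Strip

open Pool.Agent.NPC

abbrev Cl := Lit ℕ × Lit ℕ × Lit ℕ

def nE (b : Bool) (v : ℕ) : ℕ := if b = true then 6 * v + 4 else 6 * v + 1
def iE (b : Bool) (v : ℕ) : Item := (nE b v, 2 * v, b)
def iO (c i : ℕ) : Item := (9 * c + 3 * i, 2 * c + 1, true)
def iL (c t : ℕ) : Item := (6 * c + 3 * t + 2, 2 * c + 1, false)

def occ (φ : List Cl) : List (Lit ℕ × Item) :=
  φ.zipIdx.flatMap (fun p => [(p.1.1, iO p.2 0), (p.1.2.1, iO p.2 1), (p.1.2.2, iO p.2 2)])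

def cyc (φ : List Cl) (l : Lit ℕ) : List Item :=
  ((occ φ).filter (fun q => decide (q.1 = l))).map Prod.snd

def rp (h : Item) (t : List Item) : List (Item × Item) := (h :: t).zip (t ++ [h])

def prE (φ : List Cl) : List (Item × Item) :=
  (List.range (3 * φ.length)).flatMap (fun v =>
    rp (iE true v) (cyc φ (true, v)) ++ rp (iE false v) (cyc φ (false, v)))

def prL (φ : List Cl) : List (Item × Item) :=
  φ.zipIdx.flatMap (fun p => [(iL p.2 0, iL p.2 0), (iL p.2 1, iL p.2 1)])

def pr (φ : List Cl) : List (Item × Item) := prE φ ++ prL φ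

theorem rp_fst (h : Item) (t : List Item) : (rp h t).map Prod.fst = h :: t := by
  unfold rp
  rw [List.map_fst_zip]
  simp

theorem rp_snd (h : Item) (t : List Item) : (rp h t).map Prod.snd = t ++ [h] := by
  unfold rp
  rw [List.map_snd_zip]
  simp

theorem rp_const_aux (s : ℕ → Bool) : ∀ (t : List Item) (h e : Item),
    (∀ p ∈ (h :: t).zip (t ++ [e]), s p.1.1 = s p.2.1) → ∀ a ∈ t, s a.1 = s h.1
  | [], _, _, _ => by simp
  | b :: t, h, e, H => by
    intro a ha
    have h1 : s h.1 = s b.1 := H (h, b) (by simp)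
    have h2 := rp_const_aux s t b e (fun p hp => H p (by
      rw [List.cons_append, List.zip_cons_cons]
      exact List.mem_cons_of_mem _ hp))
    rcases List.mem_cons.1 ha with rfl | ha
    · exact h1.symm
    · rw [h2 a ha, h1]

theorem rp_const {s : ℕ → Bool} {h : Item} {t : List Item}
    (H : ∀ p ∈ rp h t, s p.1.1 = s p.2.1) : ∀ a ∈ t, s a.1 = s h.1 :=
  rp_const_aux s t h h H

theorem rp_of_const {s : ℕ → Bool} {h : Item} {t : List Item}
    (H : ∀ a ∈ t, s a.1 = s h.1) : ∀ p ∈ rp h t, s p.1.1 = s p.2.1 := by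
  intro p hp
  have h1 : p.1 ∈ h :: t := by
    rw [← rp_fst h t]
    exact List.mem_map_of_mem hp
  have h2 : p.2 ∈ t ++ [h] := by
    rw [← rp_snd h t]
    exact List.mem_map_of_mem hp
  have e1 : s p.1.1 = s h.1 := by
    rcases List.mem_cons.1 h1 with h1 | h1
    · rw [h1]
    · exact H _ h1
  have e2 : s p.2.1 = s h.1 := by
    rcases List.mem_append.1 h2 with h2 | h2
    · exact H _ h2
    · rw [List.mem_singleton.1 h2]
  rw [e1, e2]

/-- Grouping a list by a key. -/
theorem group {α : Type} (k : α → ℕ) (l : List α) (n : ℕ) :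
    ((List.range n).flatMap (fun v => l.filter (fun a => decide (k a = v)))).Perm
      (l.filter (fun a => decide (k a < n))) := by
  induction n with
  | zero => simp
  | succ n ih =>
    rw [List.range_succ, List.flatMap_append, List.flatMap_singleton]
    refine (ih.append_right _).trans ?_
    have h := List.filter_append_perm (fun a => decide (k a < n))
      (l.filter (fun a => decide (k a < n + 1)))
    rw [List.filter_filter, List.filter_filter] at h
    refine List.Perm.trans (List.Perm.of_eq ?_) h
    congr 1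
    · refine List.filter_congr fun a _ => ?_
      rw [Bool.eq_iff_iff]
      simp
      omega
    · refine List.filter_congr fun a _ => ?_
      rw [Bool.eq_iff_iff]
      simp
      omega

def five (c : ℕ) : List Item := [iO c 0, iO c 1, iO c 2, iL c 0, iL c 1]

/-- The list of items up to permutation. -/
def itm (φ : List Cl) : List Item :=
  (List.range (3 * φ.length)).flatMap (fun v => [iE true v, iE false v]) ++
    φ.zipIdx.flatMap (fun p => five p.2)

theorem cyc_perm (φ : List Cl) (v : ℕ) : (cyc φ (true, v) ++ cyc φ (false, v)).Perm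
    (((occ φ).filter (fun q => decide (q.1.2 = v))).map Prod.snd) := by
  unfold cyc
  rw [← List.map_append]
  refine List.Perm.map _ ?_
  have h := List.filter_append_perm (fun q : Lit ℕ × Item => q.1.1)
    ((occ φ).filter (fun q => decide (q.1.2 = v)))
  rw [List.filter_filter, List.filter_filter] at h
  refine List.Perm.trans (List.Perm.of_eq ?_) h
  congr 1
  · refine List.filter_congr fun a _ => ?_
    rw [Bool.eq_iff_iff]
    obtain ⟨⟨b, w⟩, i⟩ := a
    simp
  · refine List.filter_congr fun a _ => ?_
    rw [Bool.eq_iff_iff]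
    obtain ⟨⟨b, w⟩, i⟩ := a
    simp

theorem pr_fst (φ : List Cl) (hφ : Bounded3 φ) : ((pr φ).map Prod.fst).Perm (itm φ) := by
  unfold pr prE prL itm
  rw [List.map_append, List.map_flatMap, List.map_flatMap]
  have e1 : ((List.range (3 * φ.length)).flatMap (fun v => List.map Prod.fst
      (rp (iE true v) (cyc φ (true, v)) ++ rp (iE false v) (cyc φ (false, v))))).Perm
      ((List.range (3 * φ.length)).flatMap (fun v => [iE true v, iE false v] ++
        ((occ φ).filter (fun q => decide (q.1.2 = v))).map Prod.snd)) := by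
    refine flatMap_perm_congr fun v _ => ?_
    rw [List.map_append, rp_fst, rp_fst]
    refine List.Perm.trans ?_ ((cyc_perm φ v).append_left _)
    rw [List.cons_append, List.cons_append, List.cons_append, List.nil_append]
    refine List.Perm.cons _ ?_
    exact List.perm_middle
  have e2 : ((List.range (3 * φ.length)).flatMap (fun v =>
        ((occ φ).filter (fun q => decide (q.1.2 = v))).map Prod.snd)).Perm
        (φ.zipIdx.flatMap (fun p => [iO p.2 0, iO p.2 1, iO p.2 2])) := by
    have h := (group (fun q : Lit ℕ × Item => q.1.2) (occ φ) (3 * φ.length)).map Prod.snd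
    rw [List.map_flatMap] at h
    refine h.trans (List.Perm.of_eq ?_)
    rw [List.filter_eq_self.2]
    · unfold occ
      rw [List.map_flatMap]
      rfl
    · intro q hq
      unfold occ at hq
      rw [List.mem_flatMap] at hq
      obtain ⟨p, hp, hq⟩ := hq
      have hpφ : p.1 ∈ φ := by
        rw [List.mem_zipIdx_iff_getElem?] at hp
        exact List.mem_of_getElem? hp
      obtain ⟨h1, h2, h3⟩ := hφ _ hpφ
      simp only [List.mem_cons, List.not_mem_nil, or_false] at hq
      rcases hq with rfl | rfl | rfl <;> simpa using ‹_›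
  have e3 : (φ.zipIdx.flatMap (fun p => List.map Prod.fst
      [(iL p.2 0, iL p.2 0), (iL p.2 1, iL p.2 1)])) =
      φ.zipIdx.flatMap (fun p => [iL p.2 0, iL p.2 1]) := rfl
  rw [e3]
  refine ((e1.trans (flatMap_append_perm' _ _ _)).append_right _).trans ?_
  rw [List.append_assoc]
  refine List.Perm.append_left _ ?_
  exact (e2.append_right _).trans (List.flatMap_append_perm _ _ _)

theorem pr_snd (φ : List Cl) : ((pr φ).map Prod.snd).Perm ((pr φ).map Prod.fst) := by
  unfold pr prE prL
  rw [List.map_append, List.map_append, List.map_flatMap, List.map_flatMap, List.map_flatMap,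
    List.map_flatMap]
  refine List.Perm.append ?_ (List.Perm.refl _)
  refine flatMap_perm_congr fun v _ => ?_
  rw [List.map_append, List.map_append, rp_fst, rp_fst, rp_snd, rp_snd]
  exact List.Perm.append (List.perm_append_singleton _ _) (List.perm_append_singleton _ _)

theorem zipIdx_flatMap {α β : Type} (l : List α) (g : ℕ → List β) :
    l.zipIdx.flatMap (fun p => g p.2) = (List.range l.length).flatMap g := by
  have h : (l.zipIdx.map Prod.snd) = List.range l.length := by
    rw [List.zipIdx_map_snd, List.range_eq_range']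
  rw [← h, List.flatMap_map]

theorem itm_nodup (φ : List Cl) : ((itm φ).map (fun a => a.1)).Nodup := by
  unfold itm
  rw [zipIdx_flatMap φ five, List.map_append, List.map_flatMap, List.map_flatMap]
  rw [List.nodup_append]
  refine ⟨?_, ?_, ?_⟩
  · rw [List.nodup_flatMap]
    refine ⟨fun v _ => ?_, ?_⟩
    · simp [iE, nE]
    · refine (List.nodup_range).imp ?_
      intro a b hab
      simp only [Function.onFun, List.disjoint_left, iE, nE, List.map_cons, List.map_nil]
      intro x hx hy
      simp at hx hy
      omega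
  · rw [List.nodup_flatMap]
    refine ⟨fun v _ => ?_, ?_⟩
    · simp [five, iO, iL]
      omega
    · refine (List.nodup_range).imp ?_
      intro a b hab
      simp only [Function.onFun, List.disjoint_left, five, iO, iL, List.map_cons, List.map_nil]
      intro x hx hy
      simp at hx hy
      omega
  · intro x hx y hy hxy
    rw [List.mem_flatMap] at hx hy
    obtain ⟨a, _, hx⟩ := hx
    obtain ⟨b, _, hy⟩ := hy
    simp [iE, nE, five, iO, iL] at hx hy
    omega

theorem pr_nodup (φ : List Cl) (hφ : Bounded3 φ) : ((pr φ).map (fun p => p.1.1)).Nodup := by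
  have h := ((pr_fst φ hφ).map (fun a => a.1)).nodup_iff.2 (itm_nodup φ)
  rwa [List.map_map] at h

theorem count_single {α : Type} {l : List α} {f : α → List ℕ} {x : ℕ} {a : α} (ha : a ∈ l)
    (hl : l.Nodup) (h : ∀ b ∈ l, b ≠ a → (f b).count x = 0) :
    (l.flatMap f).count x = (f a).count x := by
  induction l with
  | nil => simp at ha
  | cons b l ih =>
    rw [List.flatMap_cons, List.count_append]
    rw [List.nodup_cons] at hl
    have hz : ∀ l : List α, (∀ b ∈ l, (f b).count x = 0) → (l.flatMap f).count x = 0 := by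
      intro l
      induction l with
      | nil => intro _; simp
      | cons c l ih' =>
        intro h
        rw [List.flatMap_cons, List.count_append, h c (by simp), ih' fun b hb => h b (by simp [hb])]
    rcases List.mem_cons.1 ha with rfl | ha
    · rw [hz l fun c hc => h c (by simp [hc]) (fun he => hl.1 (he ▸ hc)), add_zero]
    · rw [h b (by simp) (fun he => hl.1 (he ▸ ha)), zero_add,
        ih ha hl.2 fun c hc hca => h c (by simp [hc]) hca]

/-- The selected elements. -/
def sel (s : Item → Bool) (I : List Item) : List ℕ := (I.filter s).map (fun a => a.2.1)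

theorem sel_itm (s : Item → Bool) (φ : List Cl) : sel s (itm φ) =
    (List.range (3 * φ.length)).flatMap (fun v => sel s [iE true v, iE false v]) ++
      φ.zipIdx.flatMap (fun p => sel s (five p.2)) := by
  unfold sel itm
  rw [List.filter_append, List.map_append, List.filter_flatMap, List.filter_flatMap,
    List.map_flatMap, List.map_flatMap]

theorem sel_mem_E (s : Item → Bool) (v x : ℕ) (hx : x ∈ sel s [iE true v, iE false v]) :
    x = 2 * v := by
  unfold sel at hx
  rw [List.mem_map] at hx
  obtain ⟨a, ha, rfl⟩ := hx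
  have := (List.mem_filter.1 ha).1
  simp only [List.mem_cons, List.not_mem_nil, or_false] at this
  rcases this with rfl | rfl <;> rfl

theorem sel_mem_five (s : Item → Bool) (c x : ℕ) (hx : x ∈ sel s (five c)) :
    x = 2 * c + 1 := by
  unfold sel at hx
  rw [List.mem_map] at hx
  obtain ⟨a, ha, rfl⟩ := hx
  have := (List.mem_filter.1 ha).1
  simp only [five, List.mem_cons, List.not_mem_nil, or_false] at this
  rcases this with rfl | rfl | rfl | rfl | rfl <;> rfl

theorem count_even (s : Item → Bool) (φ : List Cl) (v : ℕ) (hv : v < 3 * φ.length) :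
    (sel s (itm φ)).count (2 * v) = (sel s [iE true v, iE false v]).count (2 * v) := by
  rw [sel_itm, List.count_append]
  have h1 : (φ.zipIdx.flatMap (fun p => sel s (five p.2))).count (2 * v) = 0 := by
    rw [List.count_eq_zero, List.mem_flatMap]
    rintro ⟨p, _, hp⟩
    have := sel_mem_five s _ _ hp
    omega
  rw [h1, add_zero]
  refine count_single (f := fun v => sel s [iE true v, iE false v]) (List.mem_range.2 hv)
    List.nodup_range fun w _ hw => ?_
  rw [List.count_eq_zero]
  intro h
  have := sel_mem_E s _ _ h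
  omega

theorem count_odd (s : Item → Bool) (φ : List Cl) (c : ℕ) (hc : c < φ.length) :
    (sel s (itm φ)).count (2 * c + 1) = (sel s (five c)).count (2 * c + 1) := by
  rw [sel_itm, List.count_append, zipIdx_flatMap φ (fun c => sel s (five c))]
  have h1 : ((List.range (3 * φ.length)).flatMap
      (fun v => sel s [iE true v, iE false v])).count (2 * c + 1) = 0 := by
    rw [List.count_eq_zero, List.mem_flatMap]
    rintro ⟨p, _, hp⟩
    have := sel_mem_E s _ _ hp
    omega
  rw [h1, zero_add]
  refine count_single (f := fun c => sel s (five c)) (List.mem_range.2 hc)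
    List.nodup_range fun w _ hw => ?_
  rw [List.count_eq_zero]
  intro h
  have := sel_mem_five s _ _ h
  omega

/-- The condition of the gadget for the items of a formula. -/
def Good (φ : List Cl) : Prop :=
  ∃ s : ℕ → Bool, (∀ p ∈ pr φ, s p.1.1 = s p.2.1) ∧
    (sel (fun a => s a.1) ((pr φ).map Prod.fst)).Perm (sel (fun a => a.2.2) ((pr φ).map Prod.fst))

theorem sat_of_good {φ : List Cl} (hφ : Bounded3 φ) (h : Good φ) : SAT3 φ := by
  obtain ⟨s, hs, hp⟩ := h
  have hI := pr_fst φ hφ
  have hp' : (sel (fun a => s a.1) (itm φ)).Perm (sel (fun a => a.2.2) (itm φ)) := by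
    have h1 : ∀ t : Item → Bool, (sel t ((pr φ).map Prod.fst)).Perm (sel t (itm φ)) :=
      fun t => (hI.filter t).map _
    exact (h1 _).symm.trans (hp.trans (h1 _))
  have hE : ∀ v, v < 3 * φ.length → ¬ (s (nE true v) = true ∧ s (nE false v) = true) := by
    intro v hv hc
    have h1 := hp'.count_eq (2 * v)
    rw [count_even _ _ _ hv, count_even _ _ _ hv] at h1
    simp [sel, iE, hc.1, hc.2] at h1
  have hO : ∀ p ∈ φ.zipIdx, s (9 * p.2) = true ∨ s (9 * p.2 + 3) = true ∨
      s (9 * p.2 + 6) = true := by
    intro p hpz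
    have hlt : p.2 < φ.length := by
      rw [List.mem_zipIdx_iff_getElem?] at hpz
      by_contra hc
      rw [List.getElem?_eq_none (by omega)] at hpz
      simp at hpz
    have h1 := hp'.count_eq (2 * p.2 + 1)
    rw [count_odd _ _ _ hlt, count_odd _ _ _ hlt] at h1
    by_contra hc
    push Not at hc
    simp only [ne_eq, Bool.not_eq_true] at hc
    obtain ⟨h2, h3, h4⟩ := hc
    simp only [sel, five, iO, iL, List.filter_cons, List.filter_nil] at h1
    simp only [mul_zero, mul_one, add_zero, Nat.reduceMul, h2, h3, h4, Bool.false_eq_true,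
      if_false, if_true] at h1
    split_ifs at h1 <;> simp at h1
  have hcyc : ∀ p ∈ φ.zipIdx, ∀ q ∈ [(p.1.1, iO p.2 0), (p.1.2.1, iO p.2 1),
      (p.1.2.2, iO p.2 2)], q.1.2 < 3 * φ.length → s q.2.1 = s (nE q.1.1 q.1.2) := by
    intro p hpz q hq hlt
    have h1 : q.2 ∈ cyc φ q.1 := by
      unfold cyc
      rw [List.mem_map]
      refine ⟨q, ?_, rfl⟩
      rw [List.mem_filter]
      refine ⟨?_, by simp⟩
      unfold occ
      rw [List.mem_flatMap]
      exact ⟨p, hpz, hq⟩
    have h2 : ∀ r ∈ rp (iE q.1.1 q.1.2) (cyc φ q.1), s r.1.1 = s r.2.1 := by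
      intro r hr
      refine hs r ?_
      unfold pr prE
      refine List.mem_append_left _ ?_
      rw [List.mem_flatMap]
      refine ⟨q.1.2, List.mem_range.2 hlt, ?_⟩
      rw [List.mem_append]
      rcases hb : q.1.1 with _ | _
      · right
        rw [hb] at hr
        have : q.1 = (false, q.1.2) := by rw [← hb]
        rwa [this] at hr
      · left
        rw [hb] at hr
        have : q.1 = (true, q.1.2) := by rw [← hb]
        rwa [this] at hr
    exact rp_const h2 _ h1
  have hlit : ∀ b v, v < 3 * φ.length → s (nE b v) = true → s (nE true v) = b := by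
    intro b v hv h
    cases b with
    | true => exact h
    | false =>
      have := hE v hv
      by_contra hc
      simp only [Bool.not_eq_false] at hc
      exact this ⟨hc, h⟩
  refine ⟨fun v => s (nE true v), fun c hc => ?_⟩
  obtain ⟨b1, b2, b3⟩ := hφ c hc
  obtain ⟨i, hi⟩ := List.mem_iff_getElem?.1 hc
  have hz : (c, i) ∈ φ.zipIdx := by
    rw [List.mem_zipIdx_iff_getElem?]
    exact hi
  have g1 := hcyc (c, i) hz (c.1, iO i 0) (by simp) b1
  have g2 := hcyc (c, i) hz (c.2.1, iO i 1) (by simp) b2
  have g3 := hcyc (c, i) hz (c.2.2, iO i 2) (by simp) b3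
  simp only [iO, mul_zero, mul_one, add_zero, Nat.reduceMul] at g1 g2 g3
  rcases hO (c, i) hz with h | h | h
  · left
    exact hlit _ _ b1 (g1 ▸ h)
  · right; left
    exact hlit _ _ b2 (g2 ▸ h)
  · right; right
    exact hlit _ _ b3 (g3 ▸ h)

/-- The value of a literal. -/
def lv (τ : ℕ → Bool) (l : Lit ℕ) : Bool := τ l.2 == l.1

/-- The number of true literals of a clause. -/
def nt (τ : ℕ → Bool) (c : Cl) : ℕ := (lv τ c.1).toNat + (lv τ c.2.1).toNat + (lv τ c.2.2).toNat

/-- The states belonging to an assignment. -/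
def st (τ : ℕ → Bool) (φ : List Cl) (m : ℕ) : Bool :=
  if m % 3 = 1 then τ (m / 6) == decide (m % 6 = 4)
  else if m % 3 = 0 then
    (φ[m / 9]?).elim false (fun c => if m % 9 = 0 then lv τ c.1 else
      if m % 9 = 3 then lv τ c.2.1 else lv τ c.2.2)
  else (φ[m / 6]?).elim false (fun c => if m % 6 = 2 then decide (nt τ c ≤ 2) else
    decide (nt τ c ≤ 1))

theorem st_E (τ : ℕ → Bool) (φ : List Cl) (b : Bool) (v : ℕ) : st τ φ (nE b v) = (τ v == b) := by
  unfold st nE
  cases b
  · have h1 : (6 * v + 1) % 3 = 1 := by omega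
    have h2 : (6 * v + 1) % 6 = 1 := by omega
    have h3 : (6 * v + 1) / 6 = v := by omega
    simp [h1, h2, h3]
  · have h1 : (6 * v + 4) % 3 = 1 := by omega
    have h2 : (6 * v + 4) % 6 = 4 := by omega
    have h3 : (6 * v + 4) / 6 = v := by omega
    simp [h1, h2, h3]

theorem st_O0 (τ : ℕ → Bool) (φ : List Cl) (c : Cl) (i : ℕ) (h : φ[i]? = some c) :
    st τ φ (9 * i) = lv τ c.1 := by
  unfold st
  have h1 : (9 * i) % 3 = 0 := by omega
  have h2 : (9 * i) % 9 = 0 := by omega
  have h3 : (9 * i) / 9 = i := by omega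
  simp [h1, h3, h]

theorem st_O1 (τ : ℕ → Bool) (φ : List Cl) (c : Cl) (i : ℕ) (h : φ[i]? = some c) :
    st τ φ (9 * i + 3) = lv τ c.2.1 := by
  unfold st
  have h1 : (9 * i + 3) % 3 = 0 := by omega
  have h2 : (9 * i + 3) % 9 = 3 := by omega
  have h3 : (9 * i + 3) / 9 = i := by omega
  simp [h1, h2, h3, h]

theorem st_O2 (τ : ℕ → Bool) (φ : List Cl) (c : Cl) (i : ℕ) (h : φ[i]? = some c) :
    st τ φ (9 * i + 6) = lv τ c.2.2 := by
  unfold st
  have h1 : (9 * i + 6) % 3 = 0 := by omega
  have h2 : (9 * i + 6) % 9 = 6 := by omega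
  have h3 : (9 * i + 6) / 9 = i := by omega
  simp [h1, h2, h3, h]

theorem st_L0 (τ : ℕ → Bool) (φ : List Cl) (c : Cl) (i : ℕ) (h : φ[i]? = some c) :
    st τ φ (6 * i + 2) = decide (nt τ c ≤ 2) := by
  unfold st
  have h1 : (6 * i + 2) % 3 = 2 := by omega
  have h2 : (6 * i + 2) % 6 = 2 := by omega
  have h3 : (6 * i + 2) / 6 = i := by omega
  simp [h1, h2, h3, h]

theorem st_L1 (τ : ℕ → Bool) (φ : List Cl) (c : Cl) (i : ℕ) (h : φ[i]? = some c) :
    st τ φ (6 * i + 5) = decide (nt τ c ≤ 1) := by
  unfold st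
  have h1 : (6 * i + 5) % 3 = 2 := by omega
  have h2 : (6 * i + 5) % 6 = 5 := by omega
  have h3 : (6 * i + 5) / 6 = i := by omega
  simp [h1, h2, h3, h]

theorem good_of_sat {φ : List Cl} (hφ : Bounded3 φ) (h : SAT3 φ) : Good φ := by
  obtain ⟨τ, hτ⟩ := h
  refine ⟨st τ φ, ?_, ?_⟩
  · intro p hp
    unfold pr prE prL at hp
    rw [List.mem_append, List.mem_flatMap, List.mem_flatMap] at hp
    rcases hp with ⟨v, _, hp⟩ | ⟨q, _, hp⟩
    · have key : ∀ b, ∀ a ∈ cyc φ (b, v), st τ φ a.1 = st τ φ (iE b v).1 := by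
        intro b a ha
        unfold cyc at ha
        rw [List.mem_map] at ha
        obtain ⟨q, hq, rfl⟩ := ha
        rw [List.mem_filter] at hq
        obtain ⟨hq, hqb⟩ := hq
        have hqb : q.1 = (b, v) := by simpa using hqb
        unfold occ at hq
        rw [List.mem_flatMap] at hq
        obtain ⟨r, hr, hq⟩ := hq
        rw [List.mem_zipIdx_iff_getElem?] at hr
        have e0 : st τ φ (iE b v).1 = lv τ (b, v) := st_E τ φ b v
        rw [e0, ← hqb]
        simp only [List.mem_cons, List.not_mem_nil, or_false] at hq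
        rcases hq with rfl | rfl | rfl
        · exact st_O0 τ φ r.1 r.2 hr
        · exact st_O1 τ φ r.1 r.2 hr
        · exact st_O2 τ φ r.1 r.2 hr
      rw [List.mem_append] at hp
      rcases hp with hp | hp
      · exact rp_of_const (key true) p hp
      · exact rp_of_const (key false) p hp
    · simp only [List.mem_cons, List.not_mem_nil, or_false] at hp
      rcases hp with rfl | rfl <;> rfl
  · have hI := pr_fst φ hφ
    have h1 : ∀ t : Item → Bool, (sel t ((pr φ).map Prod.fst)).Perm (sel t (itm φ)) :=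
      fun t => (hI.filter t).map _
    refine (h1 _).trans (List.Perm.trans (List.Perm.of_eq ?_) (h1 _).symm)
    rw [sel_itm, sel_itm]
    congr 1
    · refine List.flatMap_congr fun v _ => ?_
      have e1 := st_E τ φ true v
      have e2 := st_E τ φ false v
      simp only [sel, iE, List.filter_cons, List.filter_nil, e1, e2]
      cases τ v <;> simp
    · refine List.flatMap_congr fun p hp => ?_
      rw [List.mem_zipIdx_iff_getElem?] at hp
      have hc := hτ p.1 (List.mem_of_getElem? hp)
      have e1 := st_O0 τ φ _ _ hp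
      have e2 := st_O1 τ φ _ _ hp
      have e3 := st_O2 τ φ _ _ hp
      have e4 := st_L0 τ φ _ _ hp
      have e5 := st_L1 τ φ _ _ hp
      simp only [sel, five, iO, iL, List.filter_cons, List.filter_nil]
      simp only [mul_zero, mul_one, add_zero, Nat.reduceMul, zero_add, e1, e2, e3, add_assoc,
        Nat.reduceAdd, e4, e5]
      have hc' : lv τ p.1.1 = true ∨ lv τ p.1.2.1 = true ∨ lv τ p.1.2.2 = true := by
        simpa [lv] using hc
      unfold nt
      revert hc'
      cases lv τ p.1.1 <;> cases lv τ p.1.2.1 <;> cases lv τ p.1.2.2 <;> simp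

/-- Coding of letters by numbers. -/
def cd (a : Lt) : ℕ := 12 * a.2 + a.1

def dc (m : ℕ) : Lt := (m % 12, m / 12)

theorem dc_cd {a : Lt} (h : a.1 < 12) : dc (cd a) = a := by
  obtain ⟨x, y⟩ := a
  simp only at h
  simp only [dc, cd, Prod.mk.injEq]
  omega

theorem tag_strS (l : List (Item × Item)) : ∀ a ∈ strS l, a.1 < 12 := by
  intro a ha
  unfold strS at ha
  rw [List.mem_append, List.mem_flatMap, List.mem_flatMap] at ha
  rcases ha with ⟨p, _, ha⟩ | ⟨p, _, ha⟩
  · simp [lF, lF'] at ha
    rcases ha with rfl | rfl <;> simp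
  · simp [segS, lA, lA', le, lu, lB, lB', lC, lC', lD, lD'] at ha
    rcases ha with rfl | rfl | rfl | rfl | rfl | rfl | rfl | rfl | rfl | rfl | rfl | rfl <;> simp

theorem tag_strT (l : List (Item × Item)) (hl : (l.map Prod.snd).Perm (l.map Prod.fst)) :
    ∀ a ∈ strT l, a.1 < 12 :=
  fun a ha => tag_strS l a ((balanced l hl).mem_iff.2 ha)

theorem csp_cd {S T : List Lt} (hS : ∀ a ∈ S, a.1 < 12) (hT : ∀ a ∈ T, a.1 < 12) :
    CSP (S.map cd) (T.map cd) ↔ CSP S T := by
  constructor
  · intro h
    have h1 := h.map dc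
    rw [List.map_map, List.map_map] at h1
    have e : ∀ L : List Lt, (∀ a ∈ L, a.1 < 12) → L.map (dc ∘ cd) = L := by
      intro L hL
      conv_rhs => rw [← List.map_id L]
      exact List.map_congr_left fun a ha => dc_cd (hL a ha)
    rwa [e S hS, e T hT] at h1
  · exact fun h => h.map cd

/-- The reduction. -/
def red (φ : List Cl) : List ℕ × List ℕ := ((strS (pr φ)).map cd, (strT (pr φ)).map cd)

theorem red_balanced (φ : List Cl) : (red φ).1.Perm (red φ).2 :=
  (balanced _ (pr_snd φ)).map _

theorem red_iff (φ : List Cl) (hφ : Bounded3 φ) : SAT3 φ ↔ CSP (red φ).1 (red φ).2 := by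
  unfold red
  rw [csp_cd (tag_strS _) (tag_strT _ (pr_snd φ)), csp_iff _ (pr_nodup φ hφ) (pr_snd φ)]
  exact ⟨good_of_sat hφ, sat_of_good hφ⟩

end Pool.Agent.H417R2.Strip
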