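import Pool.Agent.H417R2.StripC

/-!
# Common strip partitions: the reduction is computable in polynomial time
-/

namespace Pool.Agent.NPC.Strip

open Pool.Agent.H417R2.Strip

theorem poly_lt {α : Type} [TEnc α] (t : ℕ) {n : α → ℕ} (hn : Poly n) :
    Poly (fun a => ((t, n a) : ℕ × ℕ)) := Poly.pair (Poly.const t) hn

theorem poly_segS : Poly segS := by
  have hn : Poly (fun p : Item × Item => p.1.1) := Poly.fst (Poly.fst Poly.id)
  have hx : Poly (fun p : Item × Item => p.1.2.1) := Poly.fst (Poly.snd (Poly.fst Poly.id))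
  have hm : Poly (fun p : Item × Item => p.2.1) := Poly.fst (Poly.snd Poly.id)
  have hy : Poly (fun p : Item × Item => p.2.2.1) := Poly.fst (Poly.snd (Poly.snd Poly.id))
  exact Poly.cons (poly_lt 2 hn) (Poly.cons (poly_lt 3 hn) (Poly.cons (poly_lt 1 hx)
    (Poly.cons (Poly.const _) (Poly.cons (poly_lt 4 hn) (Poly.cons (poly_lt 5 hn)
    (Poly.cons (poly_lt 6 hn) (Poly.cons (poly_lt 7 hn) (Poly.cons (Poly.const _)
    (Poly.cons (poly_lt 1 hy) (Poly.cons (poly_lt 8 hm) (Poly.cons (poly_lt 9 hm)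
    (Poly.const []))))))))))))

theorem poly_segT : Poly segT := by
  have hn : Poly (fun p : Item => p.1) := Poly.fst Poly.id
  have hx : Poly (fun p : Item => p.2.1) := Poly.fst (Poly.snd Poly.id)
  exact Poly.cons (poly_lt 6 hn) (Poly.cons (poly_lt 7 hn) (Poly.cons (Poly.const _)
    (Poly.cons (poly_lt 4 hn) (Poly.cons (poly_lt 5 hn) (Poly.cons (poly_lt 2 hn)
    (Poly.cons (poly_lt 3 hn) (Poly.cons (poly_lt 1 hx) (Poly.cons (poly_lt 8 hn)
    (Poly.cons (poly_lt 9 hn) (Poly.const []))))))))))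

theorem poly_iso : Poly iso := by
  have hx : Poly (fun p : Item => p.2.1) := Poly.fst (Poly.snd Poly.id)
  have hf : Poly (fun p : Item => p.2.2) := Poly.snd (Poly.snd Poly.id)
  exact Poly.ite (Poly.decide_bool hf)
    (Poly.cons (poly_lt 1 hx) (Poly.cons (Poly.const lu) (Poly.const [])))
    (Poly.cons (Poly.const lu) (Poly.cons (poly_lt 1 hx) (Poly.const [])))

theorem poly_strS : Poly strS :=
  Poly.append (Poly.flatMap (F := fun _ _ => [lF, lF']) Poly.id (Poly.const _))
    (Poly.flatMap (F := fun _ p => segS p) Poly.id (poly_segS.comp (Poly.snd Poly.id)))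

theorem poly_strT : Poly strT :=
  Poly.append
    (Poly.flatMap (l := fun l : List (Item × Item) => l)
      (F := fun _ (p : Item × Item) => lF :: lF' :: iso p.1) Poly.id
      (Poly.cons (Poly.const _) (Poly.cons (Poly.const _)
        (poly_iso.comp (Poly.fst (Poly.snd Poly.id))))))
    (Poly.flatMap (l := fun l : List (Item × Item) => l)
      (F := fun _ (p : Item × Item) => segT p.1) Poly.id
      (poly_segT.comp (Poly.fst (Poly.snd Poly.id))))

theorem poly_iE (b : Bool) {α : Type} [TEnc α] {v : α → ℕ} (hv : Poly v) :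
    Poly (fun a => iE b (v a)) := by
  have h1 : Poly (fun a => nE b (v a)) := by
    unfold nE
    cases b
    · exact (Poly.add (Poly.mul (Poly.const 6) hv) (Poly.const 1)).congr fun a => by simp
    · exact (Poly.add (Poly.mul (Poly.const 6) hv) (Poly.const 4)).congr fun a => by simp
  exact Poly.pair h1 (Poly.pair (Poly.mul (Poly.const 2) hv) (Poly.const b))

theorem poly_iO (i : ℕ) {α : Type} [TEnc α] {v : α → ℕ} (hv : Poly v) :
    Poly (fun a => iO (v a) i) :=
  Poly.pair (Poly.add (Poly.mul (Poly.const 9) hv) (Poly.const (3 * i)))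
    (Poly.pair (Poly.add (Poly.mul (Poly.const 2) hv) (Poly.const 1)) (Poly.const true))

theorem poly_iL (t : ℕ) {α : Type} [TEnc α] {v : α → ℕ} (hv : Poly v) :
    Poly (fun a => iL (v a) t) :=
  Poly.pair (Poly.add (Poly.add (Poly.mul (Poly.const 6) hv) (Poly.const (3 * t))) (Poly.const 2))
    (Poly.pair (Poly.add (Poly.mul (Poly.const 2) hv) (Poly.const 1)) (Poly.const false))

theorem poly_occ : Poly occ := by
  refine Poly.flatMap (l := fun φ : List Cl => φ.zipIdx)
    (F := fun _ (p : Cl × ℕ) => [(p.1.1, iO p.2 0), (p.1.2.1, iO p.2 1), (p.1.2.2, iO p.2 2)])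
    (Poly.zipIdx Poly.id) ?_
  have hp : Poly (fun q : List Cl × (Cl × ℕ) => q.2) := Poly.snd Poly.id
  exact Poly.cons (Poly.pair (Poly.fst (Poly.fst hp)) (poly_iO 0 (Poly.snd hp)))
    (Poly.cons (Poly.pair (Poly.fst (Poly.snd (Poly.fst hp))) (poly_iO 1 (Poly.snd hp)))
    (Poly.cons (Poly.pair (Poly.snd (Poly.snd (Poly.fst hp))) (poly_iO 2 (Poly.snd hp)))
    (Poly.const [])))

theorem poly_cyc {α : Type} [TEnc α] {f : α → List Cl} {l : α → Lit ℕ} (hf : Poly f)
    (hl : Poly l) : Poly (fun a => cyc (f a) (l a)) := by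
  refine Poly.map (F := fun _ (q : Lit ℕ × Item) => q.2) ?_ (Poly.snd (Poly.snd Poly.id))
  refine Poly.filter (p := fun a (q : Lit ℕ × Item) => decide (q.1 = l a)) (poly_occ.comp hf) ?_
  exact Poly.decide_eq (Poly.fst (Poly.snd Poly.id)) (hl.comp (Poly.fst Poly.id))

theorem poly_rp {α : Type} [TEnc α] {h : α → Item} {t : α → List Item} (hh : Poly h)
    (ht : Poly t) : Poly (fun a => rp (h a) (t a)) :=
  Poly.zip (Poly.cons hh ht) (Poly.append ht (Poly.cons hh (Poly.const [])))

theorem poly_prE : Poly prE := by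
  refine Poly.flatMap (l := fun φ : List Cl => List.range (3 * φ.length))
    (F := fun φ v => rp (iE true v) (cyc φ (true, v)) ++ rp (iE false v) (cyc φ (false, v)))
    (UPoly.range (UPoly.mul (UPoly.const 3) (UPoly.length Poly.id))) ?_
  have h1 : Poly (fun q : List Cl × ℕ => q.1) := Poly.fst Poly.id
  have h2 : Poly (fun q : List Cl × ℕ => q.2) := Poly.snd Poly.id
  exact Poly.append
    (poly_rp (poly_iE true h2) (poly_cyc h1 (Poly.pair (Poly.const true) h2)))
    (poly_rp (poly_iE false h2) (poly_cyc h1 (Poly.pair (Poly.const false) h2)))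

theorem poly_prL : Poly prL := by
  refine Poly.flatMap (l := fun φ : List Cl => φ.zipIdx)
    (F := fun _ (p : Cl × ℕ) => [(iL p.2 0, iL p.2 0), (iL p.2 1, iL p.2 1)])
    (Poly.zipIdx Poly.id) ?_
  have hp : Poly (fun q : List Cl × (Cl × ℕ) => q.2.2) := Poly.snd (Poly.snd Poly.id)
  exact Poly.cons (Poly.pair (poly_iL 0 hp) (poly_iL 0 hp))
    (Poly.cons (Poly.pair (poly_iL 1 hp) (poly_iL 1 hp)) (Poly.const []))

theorem poly_pr : Poly pr := Poly.append poly_prE poly_prL

theorem poly_cd : Poly cd := Poly.add (Poly.mul (Poly.const 12) (Poly.snd Poly.id))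
  (Poly.fst Poly.id)

theorem poly_red : Poly red :=
  Poly.pair (Poly.map (F := fun _ b => cd b) (poly_strS.comp poly_pr)
      (poly_cd.comp (Poly.snd Poly.id)))
    (Poly.map (F := fun _ b => cd b) (poly_strT.comp poly_pr) (poly_cd.comp (Poly.snd Poly.id)))

end Pool.Agent.NPC.Strip
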